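import Mathlib
import Pool.Agent.W964.Pram.Arith

/-!
The arithmetic for many instances.
-/

namespace Pool.Agent.W964.Pram

open Finset H568R2 H592R3

section
variable {Q T b m' : ℕ} {U τ : ℝ} {e Wm : ℕ}

/-- The contribution of the sets of medium size. -/
lemma Ar.medium2 (h : Ar Q T b m' U τ e Wm) {P : ℕ} (hP : (P : ℝ) ≤ U ^ ((2 * Q - 12) * m')) :
    2 ^ (Q * m') * ((2 * U ^ 4) ^ (2 * m') * ((T * P * ((2 * m' + 2) * (2 * (Wm : ℝ)) ^ (2 * m'))) *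
      (2 * (Wm : ℝ)) ^ (2 * m') * ((2 * m') ^ (2 * m') * (U ^ 2) ^ m'))) ≤
      (U ^ 2) ^ (Q * m') / U := by
  have hW := h.Wle
  have he := h.eR
  have h0 := h.τpos
  have hU0 := h.Upos
  have hU1 := h.U1
  have hm' := h.hm'
  have hQ := h.hQ
  have hT := h.hT
  obtain ⟨hTe, hm, _, _⟩ := h.He
  have hmR : (m' : ℝ) ≤ e := by exact_mod_cast hm
  have hTeR : (3 : ℝ) * T ≤ e := by exact_mod_cast hTe
  have hτ1 : (1 : ℝ) ≤ τ := by
    have := h.τ2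
    have : (1 : ℝ) ≤ 24 ^ 16 * 2 := by norm_num
    linarith
  obtain ⟨Z, hZ⟩ : ∃ Z : ℝ, Z = 2 ^ (Q + 2) * (4 * (Wm : ℝ) * m') ^ 2 := ⟨_, rfl⟩
  have hZ0 : 0 ≤ Z := by rw [hZ]; positivity
  have hZU : Z ≤ U := by
    refine le_trans ?_ h.τU
    apply (pow_le_pow_iff_left₀ hZ0 h0.le (by norm_num : (2 : ℕ) ≠ 0)).1
    have h1 : 4 * (Wm : ℝ) * m' ≤ 8 * (e : ℝ) ^ 4 * b := by
      calc 4 * (Wm : ℝ) * m' ≤ 4 * (2 * (e : ℝ) ^ 3 * b) * e := by gcongr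
        _ = 8 * (e : ℝ) ^ 4 * b := by ring
    calc Z ^ 2 = (2 ^ (Q + 2)) ^ 2 * (4 * (Wm : ℝ) * m') ^ 4 := by rw [hZ]; ring
      _ ≤ (2 ^ (Q + 2)) ^ 2 * (8 * (e : ℝ) ^ 4 * b) ^ 4 := by gcongr
      _ = (2 ^ (2 * Q + 16) * (b : ℝ) ^ 4) * (e : ℝ) ^ 16 := by
          have h2 : (2 : ℝ) ^ (2 * Q + 16) = (2 ^ (Q + 2)) ^ 2 * 2 ^ 12 := by
            rw [← pow_mul, ← pow_add]; congr 1; ring
          rw [h2]
          ring
      _ ≤ τ * τ := by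
          apply mul_le_mul h.hB1 _ (by positivity) h0.le
          have h5 := h.e16
          have h7 : (0 : ℝ) ≤ (e : ℝ) ^ 16 := by positivity
          nlinarith
      _ = τ ^ 2 := by ring
  have h2e : (T : ℝ) * ((2 * m' + 2) * (2 * (Wm : ℝ)) ^ (2 * m')) * U ≤ U ^ m' := by
    have h1 : (T : ℝ) * (2 * m' + 2) ≤ τ := by
      have h2 : (T : ℝ) * (2 * m' + 2) ≤ (24 * (e : ℝ)) ^ 2 := by
        have h3 : (0 : ℝ) ≤ T := Nat.cast_nonneg _
        have h4 : (T : ℝ) ≤ e := by linarith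
        calc (T : ℝ) * (2 * m' + 2) ≤ e * (2 * e + 2 * e) := by
              apply mul_le_mul h4 _ (by positivity) (by linarith)
              linarith
          _ ≤ (24 * (e : ℝ)) ^ 2 := by nlinarith
      have h3 : (24 * (e : ℝ)) ^ 2 ≤ (24 * (e : ℝ)) ^ 16 :=
        pow_le_pow_right₀ (by linarith) (by norm_num)
      have h4 := h.hA
      have h5 : (0 : ℝ) ≤ (24 * (e : ℝ)) ^ 16 := by positivity
      linarith
    have h2 : (2 * (Wm : ℝ)) ^ (2 * m') ≤ τ ^ m' := by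
      rw [pow_mul]
      apply pow_le_pow_left₀ (by positivity)
      refine le_trans ?_ h.W2
      apply pow_le_pow_left₀ (by positivity)
      have : (0 : ℝ) ≤ Wm := Nat.cast_nonneg _
      linarith
    calc (T : ℝ) * ((2 * m' + 2) * (2 * (Wm : ℝ)) ^ (2 * m')) * U =
        (T * (2 * m' + 2)) * (2 * (Wm : ℝ)) ^ (2 * m') * U := by ring
      _ ≤ τ * τ ^ m' * U := by gcongr
      _ = τ ^ (m' + 1 + 3 * T) := by
          rw [h.hU, pow_add, pow_succ]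
          ring
      _ ≤ τ ^ (3 * T * m') := by
          apply pow_le_pow_right₀ hτ1
          obtain ⟨m1, rfl⟩ : ∃ m1, m' = m1 + 2 := ⟨m' - 2, by omega⟩
          obtain ⟨T1, rfl⟩ : ∃ T1, T = T1 + 1 := ⟨T - 1, by omega⟩
          nlinarith
      _ = U ^ m' := by rw [h.hU, ← pow_mul]
  rw [le_div_iff₀ hU0]
  have e1 : 2 ^ (Q * m') * ((2 * U ^ 4) ^ (2 * m') *
      ((T * P * ((2 * m' + 2) * (2 * (Wm : ℝ)) ^ (2 * m'))) *
      (2 * (Wm : ℝ)) ^ (2 * m') * ((2 * m') ^ (2 * m') * (U ^ 2) ^ m'))) =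
      U ^ (10 * m') * ((T * P * ((2 * m' + 2) * (2 * (Wm : ℝ)) ^ (2 * m'))) * Z ^ m') := by
    have h1 : Z ^ m' = 2 ^ (Q * m') * 2 ^ (2 * m') * ((2 * (Wm : ℝ)) ^ (2 * m') *
        (2 * m') ^ (2 * m')) := by
      rw [hZ, mul_pow, ← pow_mul, ← pow_mul, ← mul_pow, ← pow_add,
        show (Q + 2) * m' = Q * m' + 2 * m' by ring,
        show 2 * (Wm : ℝ) * (2 * m') = 4 * Wm * m' by ring]
    have h3 : (U ^ 4) ^ (2 * m') * (U ^ 2) ^ m' = U ^ (10 * m') := by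
      rw [← pow_mul, ← pow_mul, ← pow_add]; congr 1; ring
    rw [h1, ← h3, mul_pow 2 (U ^ 4)]
    ring
  rw [e1]
  have hP0 : (0 : ℝ) ≤ P := Nat.cast_nonneg P
  calc U ^ (10 * m') * (T * P * ((2 * m' + 2) * (2 * (Wm : ℝ)) ^ (2 * m')) * Z ^ m') * U
      ≤ U ^ (10 * m') * (T * P * ((2 * m' + 2) * (2 * (Wm : ℝ)) ^ (2 * m')) * U ^ m') * U := by
        gcongr
    _ = U ^ (10 * m') * P * ((T : ℝ) * ((2 * m' + 2) * (2 * (Wm : ℝ)) ^ (2 * m')) * U) *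
        U ^ m' := by ring
    _ ≤ U ^ (10 * m') * U ^ ((2 * Q - 12) * m') * U ^ m' * U ^ m' := by gcongr
    _ = (U ^ 2) ^ (Q * m') := by
        rw [← pow_mul, ← pow_add, ← pow_add, ← pow_add]
        congr 1
        have h1 : (2 * Q - 12) * m' + 12 * m' = 2 * Q * m' := by
          rw [← Nat.add_mul]; congr 1; omega
        have h2 : 2 * (Q * m') = 2 * Q * m' := by ring
        omega

end

end Pool.Agent.W964.Pram
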