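import Mathlib
import Pool.Agent.W964.Wd.Machine

/-!
Parallel distillers.
-/

namespace Pool.Agent.W964.Wd

/-- A parallel distiller with `P` processors and `U` output words: an ideal parallel random access
machine `mach` (see `Machine`), a family `outs` of `U` cells from which its output, a string of
`U` words of arbitrary length, is read off, and an arbitrary (not necessarily computable) set
`target` of such strings, the target language. -/
structure Distiller (J : Type) (P U : ℕ) where
  mach : Machine Bool J P
  outs : Fin U → J ⊕ mach.A
  target : (Fin U → mach.V) → Prop

/-- The output after `T` steps on the input `x` belongs to the target language. -/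
def Distiller.Yes {J : Type} {P U : ℕ} (D : Distiller J P U) (T : ℕ) (x : J → Bool) : Prop :=
  D.target (fun u => (D.mach.run x T).2 (D.outs u))

/-- A randomized parallel distiller: a probability distribution on finitely many distillers. -/
structure RandDistiller (J : Type) (P U : ℕ) where
  Ω : Type
  fin : Fintype Ω
  prob : Ω → ℝ
  nonneg : ∀ ω, 0 ≤ prob ω
  total : ∑ ω, prob ω = 1
  dist : Ω → Distiller J P U

/-- All lists searched by the machines have length at most `k`. -/
def RandDistiller.Lists {J : Type} {P U : ℕ} (R : RandDistiller J P U) (k : ℕ) : Prop :=
  ∀ ω, (R.dist ω).mach.Lists k

open Classical in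
/-- The probability that the output after `T` steps on the input `x` belongs to the target
language if and only if `p` holds. -/
noncomputable def RandDistiller.success {J : Type} {P U : ℕ} (R : RandDistiller J P U) (T : ℕ)
    (x : J → Bool) (p : Prop) : ℝ :=
  letI := R.fin
  ∑ ω, if ((R.dist ω).Yes T x ↔ p) then R.prob ω else 0

end Pool.Agent.W964.Wd
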