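import Mathlib
import Pool.Agent.W964.Wd.Or.First
import Pool.Agent.W964.Pram.Hard

/-!
Many random instances, one of which has a planted solution: the bound with the parameters chosen.
-/

set_option linter.unusedSectionVars false

namespace Pool.Agent.W964.Wd

open Finset H568R2 H592R3 Pool.Agent.W964.Pram

open Classical in
/-- The first moment for many instances, with the parameters fixed. -/
theorem multi_first (Q T b m' mm : ℕ) (hmm : 1 ≤ mm) (hQ : 6 ≤ Q) (hT : 1 ≤ T) (hm' : 2 ≤ m')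
    (hA : 2 * (12 * (2 * (3 * T * (E1 Q * m' + 1)))) ^ 16 ≤ 2 ^ b)
    (hB1 : 2 ^ (2 * Q + 16) * b ^ 4 ≤ 2 ^ b)
    (hB2 : 4 * Q + 8 ≤ 3 * T * b) (hB3 : 32 * E1 Q ≤ b)
    (s : Fin (Q * m') → Fin (2 * Q ^ 2 + 14 + 1) → Fin (Q * m'))
    (hexp : ∀ H : Finset (Fin (Q * m')), m' ≤ H.card → Q * m' - (touched s H).card ≤ m')
    (hsm : ∀ H : Finset (Fin (Q * m')), 1 ≤ H.card → H.card < m' →
        3 * H.card ≤ (touched s H).card)
    {J : Type} {P : ℕ} (M : Machine Bool J P) {Kl : ℕ} (hK : ∀ q, (M.query q).length ≤ Kl)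
    (hKl : mm * (Kl + P + 3) ≤ 2 ^ (2 * Q ^ 2 * (3 * T * b * m')))
    (hP : P ≤ 2 ^ ((2 * Q - 12) * (3 * T * b * m')))
    (σ : ((Fin mm × (Fin (Q * m') × (Fin (2 * Q ^ 2 + 14 + 1) →
      Fin (2 ^ (2 * (3 * T) * b))))) → Bool) → (J → Bool))
    (hσ : ∀ j, Junta 1 (fun x => σ x j)) :
    Ex (vp ((1 / ((2 : ℝ) ^ (3 * T * b)) ^ 3) / 2)) (fun X : (Fin mm × (Fin (Q * m') ×
      (Fin (2 * Q ^ 2 + 14 + 1) → Fin (2 ^ (2 * (3 * T) * b))))) → Bool =>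
        ∑ κ : Fin mm × (Fin (Q * m') → Fin (2 ^ (2 * (3 * T) * b))),
        if M.result T (σ X) ≠ M.result T (σ (plant (vi s κ) univ X)) then (1 : ℝ) else 0) ≤
      3 * (((2 : ℝ) ^ (2 * (3 * T) * b)) ^ (Q * m') / 2 ^ (3 * T * b)) := by
  obtain ⟨e, he⟩ : ∃ e, e = 3 * T * (E1 Q * m' + 1) := ⟨_, rfl⟩
  obtain ⟨l, hl⟩ : ∃ l, l = 3 * T * b * (E0 Q * m') := ⟨_, rfl⟩
  obtain ⟨Wm, hW⟩ : ∃ Wm, Wm = 3 * T * (2 * e * (3 * T * b * (E0 Q * m'))) := ⟨_, rfl⟩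
  obtain ⟨τ, hτ⟩ : ∃ τ : ℝ, τ = 2 ^ b := ⟨_, rfl⟩
  obtain ⟨U, hU⟩ : ∃ U : ℝ, U = (2 : ℝ) ^ (3 * T * b) := ⟨_, rfl⟩
  rw [← he] at hA
  have hUτ : U = τ ^ (3 * T) := by rw [hU, hτ, ← pow_mul, mul_comm b]
  have ar : Ar Q T b m' U τ e Wm := by
    refine ⟨hQ, hT, hm', hUτ, he, hτ, ?_, ?_, ?_, hB3, hW⟩
    · have : ((2 * (12 * (2 * e)) ^ 16 : ℕ) : ℝ) ≤ ((2 ^ b : ℕ) : ℝ) := by exact_mod_cast hA
      push_cast at this
      rw [hτ, show 24 * (e : ℝ) = 12 * (2 * e) by ring]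
      exact this
    · rw [hτ]
      exact_mod_cast hB1
    · rw [hU]
      exact pow_le_pow_right₀ (by norm_num) hB2
  have hU0 := ar.Upos
  have hU1 := ar.U1
  have hτ0 := ar.τpos
  have hE0 : 1 ≤ E0 Q := by unfold E0; omega
  have hb := ar.bpos
  have hl1 : 1 ≤ 3 * T * b * m' := Nat.one_le_iff_ne_zero.2 (by positivity)
  have hpw2 : ∀ k, U ^ k = (2 : ℝ) ^ (k * (3 * T * b)) := by
    intro k; rw [hU, ← pow_mul, mul_comm]
  have hPR : (P : ℝ) ≤ U ^ ((2 * Q - 12) * m') := by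
    rw [hpw2]
    have h1 : (P : ℝ) ≤ ((2 ^ ((2 * Q - 12) * (3 * T * b * m')) : ℕ) : ℝ) := by exact_mod_cast hP
    refine h1.trans (le_of_eq ?_)
    push_cast
    congr 1
    ring
  have hKl' : Kl ≤ 2 ^ (2 * Q ^ 2 * (3 * T * b * m')) := by
    have h1 : Kl ≤ mm * (Kl + P + 3) :=
      (by omega : Kl ≤ Kl + P + 3).trans (Nat.le_mul_of_pos_left _ hmm)
    exact h1.trans hKl
  have hKR : ((mm * (Kl + P + 3) : ℕ) : ℝ) ≤ U ^ (2 * Q ^ 2 * m') := by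
    rw [hpw2]
    have h1 : ((mm * (Kl + P + 3) : ℕ) : ℝ) ≤
        ((2 ^ (2 * Q ^ 2 * (3 * T * b * m')) : ℕ) : ℝ) := by exact_mod_cast hKl
    refine h1.trans (le_of_eq ?_)
    push_cast
    congr 1
    ring
  have hl2 : ∀ k, k + 3 ≤ E0 Q → ∀ x, x ≤ 2 ^ (k * (3 * T * b * m')) → x + 3 ≤ 2 ^ l := by
    intro k hk x hx
    have h1 : l = (3 * T * b * m') * E0 Q := by rw [hl]; ring
    have h2 : 2 ^ (k * (3 * T * b * m')) + 3 ≤ 2 ^ ((k + 2) * (3 * T * b * m')) := by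
      rw [Nat.add_mul, pow_add]
      have h3 : 2 ^ 2 ≤ 2 ^ (2 * (3 * T * b * m')) := Nat.pow_le_pow_right (by norm_num) (by omega)
      have h4 : 1 ≤ 2 ^ (k * (3 * T * b * m')) := Nat.one_le_two_pow
      have h5 : 2 ^ (k * (3 * T * b * m')) * 2 ^ 2 ≤
          2 ^ (k * (3 * T * b * m')) * 2 ^ (2 * (3 * T * b * m')) := Nat.mul_le_mul_left _ h3
      omega
    refine (Nat.add_le_add_right hx 3).trans (h2.trans ?_)
    apply Nat.pow_le_pow_right (by norm_num)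
    rw [h1, mul_comm]
    exact Nat.mul_le_mul_left _ (by omega)
  have hm1 : Kl + 2 ≤ 2 ^ l := by
    have := hl2 (2 * Q ^ 2) (by unfold E0; omega) Kl hKl'
    omega
  have hm2 : P + 3 ≤ 2 ^ l := by
    refine hl2 (2 * Q - 12) (by unfold E0; omega) P hP
  have hl2' : 2 ≤ l := by
    rw [hl]
    calc 2 ≤ 3 * T * b * 1 := by
          have : 1 ≤ T * b := Nat.one_le_iff_ne_zero.2 (by positivity)
          have h2 : 3 * T * b * 1 = 3 * (T * b) := by ring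
          omega
      _ ≤ 3 * T * b * (E0 Q * m') :=
          Nat.mul_le_mul_left _ (Nat.one_le_iff_ne_zero.2 (by positivity))
  have hWm : 2 * e + (2 * e * l + (2 * e + T * (2 * e * l))) ≤ Wm := by
    rw [hW, ← hl]
    have h1 : 2 * e * 2 ≤ 2 * e * l := Nat.mul_le_mul_left _ hl2'
    have h2 : 1 * (2 * e * l) ≤ T * (2 * e * l) := Nat.mul_le_mul_right _ hT
    have h3 : 3 * T * (2 * e * l) = 3 * (T * (2 * e * l)) := by ring
    omega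
  have hnU : ((2 ^ (2 * (3 * T) * b) : ℕ) : ℝ) = U ^ 2 := by
    rw [hU, ← pow_mul]; push_cast; congr 1; ring
  have hBs := Mb2.small_sum (h := Wm) (L := m') s hU1 hnU hsm ar.small
  have hq3 : 1 / U = ((1 / τ) ^ 3) ^ T := by
    rw [hUτ, ← pow_mul, one_div_pow]
  have hτ3 : 3 ≤ τ := by
    have := ar.τ2
    have : (3 : ℝ) ≤ 24 ^ 16 * 2 := by norm_num
    linarith
  have hmom := multi_moment (mm := mm) (n := 2 ^ (2 * (3 * T) * b)) (T := T) s M σ hσ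
    (h := 2 * e) (l := l) (Wm := Wm) (L := m')
    (u := m') (by have := ar.e1; omega) hK hm1 hm2 hWm hm' Nat.one_le_two_pow hexp
    (q₀ := 1 / τ) (y := 1 / U ^ 3) (q := 1 / U) (c := 2 * U ^ 4) (by positivity)
    (one_div_le_one_div_of_le (by norm_num) hτ3) hq3
    (by positivity) (by rw [div_le_one (by positivity)]; exact one_le_pow₀ hU1)
    (by apply le_of_eq; field_simp) (by
      have : 1 ≤ U ^ 4 := one_le_pow₀ hU1
      linarith) hBs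
  rw [← hU]
  refine hmom.trans ?_
  have hmed := ar.medium2 hPR
  have hfail := ar.fail hPR hKR
  rw [hnU]
  have hU2 : (2 : ℝ) ^ (2 * (3 * T) * b) = U ^ 2 := by
    rw [hU, ← pow_mul]; congr 1; ring
  rw [hU2]
  have h3 : (U ^ 2) ^ (Q * m') * (2 ^ (Q * m') * (2 * U ^ 4) ^ (2 * m')) *
      (mm * (T * (((P * 2 ^ (2 * e) * (Kl + P + 3) : ℕ) : ℝ) *
        (12 * (Wm : ℝ) * (1 / τ)) ^ (2 * e + 1)))) ≤ (U ^ 2) ^ (Q * m') / U := by
    have hn : ((mm * (P * 2 ^ (2 * e) * (Kl + P + 3)) : ℕ) : ℝ) ≤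
        ((P * 2 ^ (2 * e) * (mm * (Kl + P + 3) + P + 3) : ℕ) : ℝ) := by
      have : mm * (P * 2 ^ (2 * e) * (Kl + P + 3)) ≤
          P * 2 ^ (2 * e) * (mm * (Kl + P + 3) + P + 3) := by
        calc mm * (P * 2 ^ (2 * e) * (Kl + P + 3)) =
            P * 2 ^ (2 * e) * (mm * (Kl + P + 3)) := by ring
          _ ≤ _ := Nat.mul_le_mul_left _ (by omega)
      exact_mod_cast this
    calc (U ^ 2) ^ (Q * m') * (2 ^ (Q * m') * (2 * U ^ 4) ^ (2 * m')) *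
      (mm * (T * (((P * 2 ^ (2 * e) * (Kl + P + 3) : ℕ) : ℝ) *
        (12 * (Wm : ℝ) * (1 / τ)) ^ (2 * e + 1)))) =
        (U ^ 2) ^ (Q * m') * ((2 ^ (Q * m') * (2 * U ^ 4) ^ (2 * m')) *
      (T * (((mm * (P * 2 ^ (2 * e) * (Kl + P + 3)) : ℕ) : ℝ) *
        (12 * (Wm : ℝ) * (1 / τ)) ^ (2 * e + 1)))) := by push_cast; ring
      _ ≤ (U ^ 2) ^ (Q * m') * ((2 ^ (Q * m') * (2 * U ^ 4) ^ (2 * m')) *
      (T * (((P * 2 ^ (2 * e) * (mm * (Kl + P + 3) + P + 3) : ℕ) : ℝ) *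
        (12 * (Wm : ℝ) * (1 / τ)) ^ (2 * e + 1)))) := by
          apply mul_le_mul_of_nonneg_left _ (by positivity)
          apply mul_le_mul_of_nonneg_left _ (by positivity)
          apply mul_le_mul_of_nonneg_left _ (by positivity)
          exact mul_le_mul_of_nonneg_right hn (by positivity)
      _ ≤ (U ^ 2) ^ (Q * m') * (1 / U) := mul_le_mul_of_nonneg_left hfail (by positivity)
      _ = (U ^ 2) ^ (Q * m') / U := by rw [mul_one_div]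
  have h4 : 3 * ((U ^ 2) ^ (Q * m') / U) = (U ^ 2) ^ (Q * m') / U + (U ^ 2) ^ (Q * m') / U +
      (U ^ 2) ^ (Q * m') / U := by ring
  rw [h4]
  exact add_le_add (add_le_add hmed le_rfl) h3



open Classical in
theorem multi_hard (ε : ℝ) (hε : 0 < ε) (hε1 : ε ≤ 1 / 2) (K : ℕ) :
    ∃ Q : ℕ, 6 ≤ Q ∧ ∃ C : ℝ, 0 < C ∧
    ∀ n T w : ℕ, 2 ≤ n → 1 ≤ T → C * (T * Real.log n) ≤ w → w ≤ n →
    ∃ b m' : ℕ, 1 ≤ b ∧ 2 ≤ m' ∧ 4 * Q + 8 ≤ 3 * T * b ∧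
      ar Q * (2 * (3 * T) * b) + 1 ≤ w ∧ Q * m' * (2 * (3 * T) * b + 1) ≤ n ∧
      (1 - ε) * n ≤ (((2 * Q - 12) * (3 * T * b * m') : ℕ) : ℝ) ∧
      w ≤ 8 * ar Q * (3 * T * b) ∧
      ∃ s : Fin (Q * m') → Fin (ar Q) → Fin (Q * m'), (∀ i, s i 0 = i) ∧
      ∀ (mm : ℕ), 1 ≤ mm → mm ≤ 2 ^ (K * n) →
      ∀ (J : Type) (σ : (Fin mm × Vr Q T b m' → Bool) → (J → Bool)),
        (∀ j, Junta 1 (fun x => σ x j)) →
      ∀ (P : ℕ) (M : Machine Bool J P), (P : ℝ) ≤ 2 ^ ((1 - ε) * n) →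
        (∀ q, (M.query q).length ≤ 2 ^ (K * n)) →
        Ex (vp (dens T b)) (fun X : Fin mm × Vr Q T b m' → Bool =>
          ∑ κ : Fin mm × (Fin (Q * m') → Fin (dom T b)),
          if M.result T (σ X) ≠ M.result T (σ (plant (vi s κ) univ X)) then (1 : ℝ) else 0) ≤
        3 * (((dom T b : ℕ) : ℝ) ^ (Q * m') / 2 ^ (3 * T * b)) := by
  obtain ⟨K', hK'⟩ : ∃ K', K' = 2 * K + 4 := ⟨_, rfl⟩
  obtain ⟨ε', hε'⟩ : ∃ ε' : ℝ, ε' = min ε (1 / (K' + 1)) := ⟨_, rfl⟩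
  have hε'0 : 0 < ε' := by rw [hε']; exact lt_min hε (by positivity)
  have hε'1 : ε' ≤ ε := by rw [hε']; exact min_le_left _ _
  have hε'2 : ε' ≤ 1 / (K' + 1) := by rw [hε']; exact min_le_right _ _
  obtain ⟨Q, hQ6, hQev, hQε, C, hC, hpar⟩ := params6 ε' hε'0
  have hQR : (6 : ℝ) ≤ Q := by exact_mod_cast hQ6
  have hQK : 2 * K' ≤ Q := by
    have h1 : ε' * Q ≤ 1 / (K' + 1) * Q := mul_le_mul_of_nonneg_right hε'2 (by positivity)
    have h2 : (7 : ℝ) ≤ 1 / (K' + 1) * Q := hQε.trans h1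
    have h3 : (7 : ℝ) * (K' + 1) ≤ Q := by
      have h4 : (0 : ℝ) < K' + 1 := by positivity
      rw [one_div_mul_eq_div, le_div_iff₀ h4] at h2
      exact h2
    have h4 : (2 : ℝ) * K' ≤ Q := by
      have : (0 : ℝ) ≤ K' := Nat.cast_nonneg K'
      linarith
    exact_mod_cast h4
  refine ⟨Q, hQ6, C / 3 * 9, by positivity, ?_⟩
  intro n T w hn hT hw hwn
  have hTlog : C * (((3 * T : ℕ) : ℝ) * Real.log n) ≤ w := by
    refine le_trans (le_of_eq ?_) hw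
    push_cast
    ring
  obtain ⟨b, m', hb, hm', hA, hB1, hB2, hB3, hBw, hQn, hexp, hwb⟩ :=
    hpar n (3 * T) w hn (by omega) hTlog hwn
  obtain ⟨s, hs, hsexp, hssm⟩ := scopes2 Q m' hQ6 (by omega)
  have hn0 : (0 : ℝ) ≤ n := Nat.cast_nonneg n
  have hexp' : (1 - ε) * n ≤ (((2 * Q - 12) * (3 * T * b * m') : ℕ) : ℝ) := by
    refine le_trans ?_ hexp
    exact mul_le_mul_of_nonneg_right (by linarith) hn0
  refine ⟨b, m', hb, hm', hB2, hBw, hQn, hexp', hwb, s, hs, ?_⟩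
  intro mm hmm hmm2 J σ hσ P M hP hK
  have hPn : P ≤ 2 ^ ((2 * Q - 12) * (3 * T * b * m')) :=
    le_two_pow_of (x := (1 - ε) * n) (E := (1 - ε) * n) hP le_rfl hexp'
  have hKn : K' * n ≤ 2 * Q ^ 2 * (3 * T * b * m') := by
    obtain ⟨x, hx⟩ : ∃ x, x = 3 * T * b * m' := ⟨_, rfl⟩
    rw [← hx] at hexp' ⊢
    have h1 : (n : ℝ) ≤ 4 * Q * x := by
      have h2 : (((2 * Q - 12) * x : ℕ) : ℝ) ≤ ((2 * Q * x : ℕ) : ℝ) := by
        exact_mod_cast Nat.mul_le_mul_right x (Nat.sub_le _ _)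
      have h3 : (1 / 2 : ℝ) * n ≤ (1 - ε) * n := mul_le_mul_of_nonneg_right (by linarith) hn0
      have h4 := hexp'.trans h2
      push_cast at h4
      linarith
    have h2 : n ≤ 4 * Q * x := by exact_mod_cast h1
    calc K' * n ≤ K' * (4 * Q * x) := Nat.mul_le_mul_left _ h2
      _ = 2 * K' * (2 * Q * x) := by ring
      _ ≤ Q * (2 * Q * x) := Nat.mul_le_mul_right _ hQK
      _ = 2 * Q ^ 2 * x := by ring
  have hP2 : P ≤ 2 ^ n := by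
    have h1 : (P : ℝ) ≤ 2 ^ (n : ℝ) := by
      refine hP.trans (Real.rpow_le_rpow_of_exponent_le (by norm_num) ?_)
      nlinarith
    rw [Real.rpow_natCast] at h1
    exact_mod_cast h1
  have hbig : mm * (2 ^ (K * n) + P + 3) ≤ 2 ^ (2 * Q ^ 2 * (3 * T * b * m')) := by
    refine le_trans ?_ (Nat.pow_le_pow_right (by norm_num) hKn)
    have h1 : 2 ^ (K * n) ≤ 2 ^ ((K + 1) * n) := Nat.pow_le_pow_right (by norm_num) (by nlinarith)
    have h2 : 2 ^ n ≤ 2 ^ ((K + 1) * n) := Nat.pow_le_pow_right (by norm_num) (by nlinarith)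
    have h3 : 3 ≤ 2 * 2 ^ ((K + 1) * n) := by
      have : 2 ^ 1 ≤ 2 ^ ((K + 1) * n) := Nat.pow_le_pow_right (by norm_num) (by nlinarith)
      omega
    calc mm * (2 ^ (K * n) + P + 3) ≤ 2 ^ (K * n) * (4 * 2 ^ ((K + 1) * n)) :=
          Nat.mul_le_mul hmm2 (by omega)
      _ = 2 ^ (K * n + 2 + (K + 1) * n) := by
          rw [pow_add, pow_add]
          ring
      _ ≤ 2 ^ (K' * n) := by
          apply Nat.pow_le_pow_right (by norm_num)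
          rw [hK']
          nlinarith
  have hfirst := multi_first Q T b m' mm hmm hQ6 hT hm' hA hB1 hB2 hB3 s hsexp hssm M
    (Kl := 2 ^ (K * n)) hK hbig hPn σ hσ
  refine hfirst.trans (le_of_eq ?_)
  unfold dom
  push_cast
  rfl

end Pool.Agent.W964.Wd
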