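import Mathlib
import Pool.Agent.W964.Wd.Or.Hard
import Pool.Agent.W964.Wd.Or.Defs
import Pool.Agent.W964.Pram.Adv
import Pool.Agent.H592R7.Enc

/-!
Distillers fail on some sequence of formulas.
-/

set_option linter.unusedSectionVars false

namespace Pool.Agent.W964.Wd

open Finset H568R2 H592R3 SmallDepth Pool.Agent.W964.Pram

open Classical in
/-- Averaging. -/
lemma avg_exists {Y Ω : Type} [Fintype Y] [Fintype Ω] (ν : Y → ℝ) (hν : ∀ y, 0 ≤ ν y)
    (hν1 : ∑ y, ν y = 1) (prob : Ω → ℝ) (hp : ∀ ω, 0 ≤ prob ω) (hp1 : ∑ ω, prob ω = 1)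
    (good : Ω → Y → Prop) (η : ℝ)
    (h : ∀ ω, ∑ y, ν y * (if good ω y then (1 : ℝ) else 0) ≤ η) :
    ∃ y, ∑ ω, (if good ω y then prob ω else 0) ≤ η := by
  by_contra hcon
  push Not at hcon
  have h1 : ∑ y, ν y * (∑ ω, if good ω y then prob ω else 0) =
      ∑ ω, prob ω * ∑ y, ν y * (if good ω y then (1 : ℝ) else 0) := by
    simp only [Finset.mul_sum]
    rw [Finset.sum_comm]
    refine Finset.sum_congr rfl fun ω _ => Finset.sum_congr rfl fun x _ => ?_
    split_ifs <;> ring
  have h2 : ∑ y, ν y * (∑ ω, if good ω y then prob ω else 0) ≤ η := by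
    rw [h1]
    calc ∑ ω, prob ω * ∑ y, ν y * (if good ω y then (1 : ℝ) else 0)
        ≤ ∑ ω, prob ω * η := Finset.sum_le_sum fun ω _ =>
          mul_le_mul_of_nonneg_left (h ω) (hp ω)
      _ = η := by rw [← Finset.sum_mul, hp1, one_mul]
  have h3 : η < ∑ y, ν y * (∑ ω, if good ω y then prob ω else 0) := by
    have h4 : η = ∑ y, ν y * η := by rw [← Finset.sum_mul, hν1, one_mul]
    rw [h4]
    apply Finset.sum_lt_sum
    · intro x _
      exact mul_le_mul_of_nonneg_left (hcon x).le (hν x)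
    · have : ∃ y, ν y ≠ 0 := by
        by_contra hc
        push Not at hc
        simp only [hc, Finset.sum_const_zero] at hν1
        exact zero_ne_one hν1
      obtain ⟨x, hx⟩ := this
      refine ⟨x, Finset.mem_univ x, ?_⟩
      exact mul_lt_mul_of_pos_left (hcon x) (lt_of_le_of_ne (hν x) (Ne.symm hx))
  linarith

open Classical in
/-- The probability that one of the random instances is satisfiable. -/
lemma multi_prob {mm m r N : ℕ} (s : Fin m → Fin r → Fin m) {p : ℝ} (hp0 : 0 ≤ p) (hp1 : p ≤ 1) :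
    Ex (vp p) (fun X : (Fin mm × (Fin m × (Fin r → Fin N))) → Bool =>
      if ∃ i, Sat s (fun v => X (i, v)) then (1 : ℝ) else 0) ≤ mm * ((N : ℝ) ^ m * p ^ m) := by
  have hpt : ∀ X : (Fin mm × (Fin m × (Fin r → Fin N))) → Bool,
      (if ∃ i, Sat s (fun v => X (i, v)) then (1 : ℝ) else 0) ≤
      ∑ a : Fin mm × (Fin m → Fin N),
        1 * (if ∀ i ∈ univ.image (vi s a), X i = true then (1 : ℝ) else 0) := by
    intro X
    have hnn : ∀ a ∈ (univ : Finset (Fin mm × (Fin m → Fin N))), (0 : ℝ) ≤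
        1 * (if ∀ i ∈ univ.image (vi s a), X i = true then (1 : ℝ) else 0) := by
      intro a _
      split_ifs <;> norm_num
    by_cases hX : ∃ i, Sat s (fun v => X (i, v))
    · rw [if_pos hX]
      obtain ⟨i₀, a, ha⟩ := hX
      refine le_trans ?_ (Finset.single_le_sum hnn (Finset.mem_univ (i₀, a)))
      rw [if_pos, one_mul]
      intro i hi
      obtain ⟨c, _, rfl⟩ := Finset.mem_image.1 hi
      exact ha c
    · rw [if_neg hX]
      exact Finset.sum_nonneg hnn
  refine (Ex_mono (vp_nonneg hp0 hp1) hpt).trans ?_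
  rw [Ex_sum]
  have h1 : ∀ a : Fin mm × (Fin m → Fin N),
      Ex (vp p) (fun X : (Fin mm × (Fin m × (Fin r → Fin N))) → Bool =>
      1 * (if ∀ i ∈ univ.image (vi s a), X i = true then (1 : ℝ) else 0)) = p ^ m := by
    intro a
    have h2 := Ex_indep (I := Fin mm × (Fin m × (Fin r → Fin N))) (vp_sum p)
      (fun b : Bool => b = true)
      (univ.image (vi s a)) (fun _ => (1 : ℝ)) (fun _ _ _ _ => rfl)
    rw [Ex_const (vp_sum p), mul_one, Finset.card_image_of_injective _ (vi_inj s a),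
      Finset.card_univ, Fintype.card_fin] at h2
    have h3 : ∑ a ∈ univ.filter (fun b : Bool => b = true), vp p a = p := by
      rw [Finset.sum_filter, Fintype.sum_bool]
      simp [vp]
    rw [h3] at h2
    rw [← h2]
  rw [Finset.sum_congr rfl fun a _ => h1 a, Finset.sum_const, Finset.card_univ,
    Fintype.card_prod, Fintype.card_fun,
    Fintype.card_fin, Fintype.card_fin, Fintype.card_fin, nsmul_eq_mul]
  push_cast
  apply le_of_eq
  ring

/-- A planted sequence contains a satisfiable instance. -/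
lemma multi_plant {mm m r N : ℕ} (s : Fin m → Fin r → Fin m) (κ : Fin mm × (Fin m → Fin N))
    (X : (Fin mm × (Fin m × (Fin r → Fin N))) → Bool) :
    Sat s (fun v => plant (vi s κ) univ X (κ.1, v)) := by
  refine ⟨κ.2, fun c => ?_⟩
  simp only [plant, Bool.or_eq_true, decide_eq_true_eq]
  exact Or.inl ⟨c, Finset.mem_univ _, rfl⟩

/-- Changing the output cell does not change the run. -/
lemma run_out {J : Type} {P : ℕ} (M : Machine Bool J P) (c : J ⊕ M.A) (T : ℕ) (x : J → Bool) :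
    ({M with out := c} : Machine Bool J P).result T x = (M.run x T).2 c := by
  have h : ∀ t, ({M with out := c} : Machine Bool J P).run x t = M.run x t := by
    intro t
    induction t with
    | zero => rfl
    | succ t ih =>
      unfold Machine.run
      rw [ih]
      rfl
  unfold Machine.result
  rw [h]

lemma split_sum {A K W : Type} [Fintype A] [Fintype K] [Fintype W] (μ : A → ℝ) (c : ℝ)
    (hc : ∑ _κ : K, c = 1) (g : A → ℝ) (G : W → K → A → ℝ) :
    ∑ X, ∑ κ, (μ X * c * (1 / 2)) * (1 + g X + ∑ u, G u κ X) =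
      1 / 2 * (∑ X, μ X * 1 + ∑ X, μ X * g X + c * ∑ u, ∑ X, μ X * ∑ κ, G u κ X) := by
  have e3 : c * ∑ u, ∑ X, μ X * ∑ κ, G u κ X = ∑ X, ∑ κ, μ X * c * ∑ u, G u κ X := by
    rw [Finset.sum_comm, Finset.mul_sum]
    refine Finset.sum_congr rfl fun X _ => ?_
    rw [← Finset.mul_sum, Finset.sum_comm, ← Finset.mul_sum]
    ring
  have e1 : ∑ X, μ X * 1 = ∑ X, ∑ _κ : K, μ X * c := by
    refine Finset.sum_congr rfl fun X _ => ?_
    rw [← Finset.mul_sum, hc]
  have e2 : ∑ X, μ X * g X = ∑ X, ∑ _κ : K, μ X * g X * c := by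
    refine Finset.sum_congr rfl fun X _ => ?_
    rw [← Finset.mul_sum, hc, mul_one]
  rw [e3, e1, e2, ← Finset.sum_add_distrib, ← Finset.sum_add_distrib, Finset.mul_sum]
  refine Finset.sum_congr rfl fun X _ => ?_
  rw [← Finset.sum_add_distrib, ← Finset.sum_add_distrib, Finset.mul_sum]
  refine Finset.sum_congr rfl fun κ _ => ?_
  ring

open Classical in
/-- One distiller on a random sequence and on a random planted sequence. -/
lemma dist_core {mm m r N : ℕ} {J : Type} {P U : ℕ} (hmm : 1 ≤ mm) (hN : 1 ≤ N)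
    (s : Fin m → Fin r → Fin m) {p : ℝ} (hp0 : 0 ≤ p) (hp1 : p ≤ 1) (D : Distiller J P U) (T : ℕ)
    (σ : ((Fin mm × (Fin m × (Fin r → Fin N))) → Bool) → (J → Bool)) (yes : (J → Bool) → Prop)
    (hyes : ∀ X, yes (σ X) ↔ ∃ i, Sat s (fun v => X (i, v))) {B : ℝ}
    (hB : ∀ c, Ex (vp p) (fun X => ∑ κ : Fin mm × (Fin m → Fin N),
      if ({D.mach with out := c} : Machine Bool J P).result T (σ X) ≠
        ({D.mach with out := c} : Machine Bool J P).result T (σ (plant (vi s κ) univ X))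
      then (1 : ℝ) else 0) ≤ B) :
    ∑ y : (((Fin mm × (Fin m × (Fin r → Fin N))) → Bool) × (Fin mm × (Fin m → Fin N))) × Bool,
      ((∏ i, vp p (y.1.1 i)) * (1 / (mm * (N : ℝ) ^ m)) * (1 / 2)) *
      (if (D.Yes T (σ (if y.2 = true then plant (vi s y.1.2) univ y.1.1 else y.1.1)) ↔
        yes (σ (if y.2 = true then plant (vi s y.1.2) univ y.1.1 else y.1.1)))
        then (1 : ℝ) else 0) ≤
      1 / 2 + (mm * ((N : ℝ) ^ m * p ^ m) + U * B / (mm * (N : ℝ) ^ m)) / 2 := by
  have hmm0 : (0 : ℝ) < mm := by exact_mod_cast hmm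
  have hN0 : (0 : ℝ) < N := by exact_mod_cast hN
  have hNp : (0 : ℝ) < mm * (N : ℝ) ^ m := by positivity
  have hμ : ∀ X : (Fin mm × (Fin m × (Fin r → Fin N))) → Bool,
      0 ≤ ∏ i, vp p (X i) := fun X => Finset.prod_nonneg fun i _ => vp_nonneg hp0 hp1 _
  have hpt : ∀ (X : (Fin mm × (Fin m × (Fin r → Fin N))) → Bool)
      (κ : Fin mm × (Fin m → Fin N)),
      (if (D.Yes T (σ (plant (vi s κ) univ X)) ↔ yes (σ (plant (vi s κ) univ X)))
        then (1 : ℝ) else 0) + (if (D.Yes T (σ X) ↔ yes (σ X)) then (1 : ℝ) else 0) ≤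
      1 + (if ∃ i, Sat s (fun v => X (i, v)) then (1 : ℝ) else 0) +
        ∑ u : Fin U, if ({D.mach with out := D.outs u} : Machine Bool J P).result T (σ X) ≠
        ({D.mach with out := D.outs u} : Machine Bool J P).result T
          (σ (plant (vi s κ) univ X)) then (1 : ℝ) else 0 := by
    intro X κ
    have hnn : ∀ u ∈ (univ : Finset (Fin U)), (0 : ℝ) ≤
        if ({D.mach with out := D.outs u} : Machine Bool J P).result T (σ X) ≠
        ({D.mach with out := D.outs u} : Machine Bool J P).result T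
          (σ (plant (vi s κ) univ X)) then (1 : ℝ) else 0 := by
      intro u _
      split_ifs <;> norm_num
    have h1 : yes (σ (plant (vi s κ) univ X)) := (hyes _).2 ⟨κ.1, multi_plant s κ X⟩
    have h2 := hyes X
    by_cases hd : ∃ u, ({D.mach with out := D.outs u} : Machine Bool J P).result T (σ X) ≠
        ({D.mach with out := D.outs u} : Machine Bool J P).result T
          (σ (plant (vi s κ) univ X))
    · obtain ⟨u, hu⟩ := hd
      have h3 := Finset.single_le_sum hnn (Finset.mem_univ u)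
      rw [if_pos hu] at h3
      have h4 : (if (D.Yes T (σ (plant (vi s κ) univ X)) ↔ yes (σ (plant (vi s κ) univ X)))
        then (1 : ℝ) else 0) ≤ 1 := by split_ifs <;> norm_num
      have h5 : (if (D.Yes T (σ X) ↔ yes (σ X)) then (1 : ℝ) else 0) ≤ 1 := by
        split_ifs <;> norm_num
      have h6 : (0 : ℝ) ≤ (if ∃ i, Sat s (fun v => X (i, v)) then (1 : ℝ) else 0) := by
        split_ifs <;> norm_num
      linarith
    · push Not at hd
      have h3 : D.Yes T (σ X) ↔ D.Yes T (σ (plant (vi s κ) univ X)) := by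
        unfold Distiller.Yes
        have h4 : (fun u => (D.mach.run (σ X) T).2 (D.outs u)) =
            fun u => (D.mach.run (σ (plant (vi s κ) univ X)) T).2 (D.outs u) := by
          funext u
          have h5 := hd u
          rw [run_out, run_out] at h5
          exact h5
        rw [h4]
      have h6 := Finset.sum_nonneg hnn
      by_cases hs : ∃ i, Sat s (fun v => X (i, v))
      · rw [if_pos hs]
        have h4 : (if (D.Yes T (σ (plant (vi s κ) univ X)) ↔ yes (σ (plant (vi s κ) univ X)))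
          then (1 : ℝ) else 0) ≤ 1 := by split_ifs <;> norm_num
        have h5 : (if (D.Yes T (σ X) ↔ yes (σ X)) then (1 : ℝ) else 0) ≤ 1 := by
          split_ifs <;> norm_num
        linarith
      · rw [if_neg hs]
        have h7 : ¬ yes (σ X) := fun h => hs (h2.1 h)
        by_cases hD : D.Yes T (σ X)
        · have h8 : ¬ (D.Yes T (σ X) ↔ yes (σ X)) := fun h => h7 (h.1 hD)
          rw [if_neg h8]
          have h4 : (if (D.Yes T (σ (plant (vi s κ) univ X)) ↔ yes (σ (plant (vi s κ) univ X)))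
            then (1 : ℝ) else 0) ≤ 1 := by split_ifs <;> norm_num
          linarith
        · have h8 : ¬ (D.Yes T (σ (plant (vi s κ) univ X)) ↔
              yes (σ (plant (vi s κ) univ X))) := fun h => hD (h3.2 (h.2 h1))
          rw [if_neg h8]
          have h5 : (if (D.Yes T (σ X) ↔ yes (σ X)) then (1 : ℝ) else 0) ≤ 1 := by
            split_ifs <;> norm_num
          linarith
  rw [Fintype.sum_prod_type]
  have h1 : ∀ Xκ : ((Fin mm × (Fin m × (Fin r → Fin N))) → Bool) × (Fin mm × (Fin m → Fin N)),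
      ∑ y : Bool, ((∏ i, vp p (Xκ.1 i)) * (1 / (mm * (N : ℝ) ^ m)) * (1 / 2)) *
      (if (D.Yes T (σ (if y = true then plant (vi s Xκ.2) univ Xκ.1 else Xκ.1)) ↔
        yes (σ (if y = true then plant (vi s Xκ.2) univ Xκ.1 else Xκ.1)))
        then (1 : ℝ) else 0) ≤
      ((∏ i, vp p (Xκ.1 i)) * (1 / (mm * (N : ℝ) ^ m)) * (1 / 2)) *
        (1 + (if ∃ i, Sat s (fun v => Xκ.1 (i, v)) then (1 : ℝ) else 0) +
        ∑ u : Fin U, if ({D.mach with out := D.outs u} : Machine Bool J P).result T (σ Xκ.1) ≠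
        ({D.mach with out := D.outs u} : Machine Bool J P).result T
          (σ (plant (vi s Xκ.2) univ Xκ.1)) then (1 : ℝ) else 0) := by
    intro Xκ
    rw [Fintype.sum_bool, ← mul_add]
    refine mul_le_mul_of_nonneg_left ?_ (mul_nonneg (mul_nonneg (hμ _) (by positivity))
      (by norm_num))
    have := hpt Xκ.1 Xκ.2
    simpa using this
  refine (Finset.sum_le_sum fun Xκ _ => h1 Xκ).trans ?_
  rw [Fintype.sum_prod_type]
  have hcard : ∑ _κ : Fin mm × (Fin m → Fin N), (1 / (mm * (N : ℝ) ^ m)) = 1 := by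
    rw [Finset.sum_const, Finset.card_univ, Fintype.card_prod, Fintype.card_fun, Fintype.card_fin,
      Fintype.card_fin, Fintype.card_fin, nsmul_eq_mul]
    push_cast
    field_simp
  have h2 : ∑ X : (Fin mm × (Fin m × (Fin r → Fin N))) → Bool,
      ∑ κ : Fin mm × (Fin m → Fin N),
      ((∏ i, vp p (X i)) * (1 / (mm * (N : ℝ) ^ m)) * (1 / 2)) *
        (1 + (if ∃ i, Sat s (fun v => X (i, v)) then (1 : ℝ) else 0) +
        ∑ u : Fin U, if ({D.mach with out := D.outs u} : Machine Bool J P).result T (σ X) ≠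
        ({D.mach with out := D.outs u} : Machine Bool J P).result T
          (σ (plant (vi s κ) univ X)) then (1 : ℝ) else 0) =
      1 / 2 * (Ex (vp p) (fun _ : (Fin mm × (Fin m × (Fin r → Fin N))) → Bool => (1 : ℝ)) +
        Ex (vp p) (fun X : (Fin mm × (Fin m × (Fin r → Fin N))) → Bool =>
          if ∃ i, Sat s (fun v => X (i, v)) then (1 : ℝ) else 0) +
        1 / (mm * (N : ℝ) ^ m) * ∑ u : Fin U, Ex (vp p) (fun X =>
          ∑ κ : Fin mm × (Fin m → Fin N),
          if ({D.mach with out := D.outs u} : Machine Bool J P).result T (σ X) ≠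
            ({D.mach with out := D.outs u} : Machine Bool J P).result T
              (σ (plant (vi s κ) univ X))
          then (1 : ℝ) else 0)) := by
    exact split_sum (A := (Fin mm × (Fin m × (Fin r → Fin N))) → Bool)
      (fun X => ∏ i, vp p (X i)) _ hcard _ (fun (u : Fin U) (κ : Fin mm × (Fin m → Fin N)) X =>
        if ({D.mach with out := D.outs u} : Machine Bool J P).result T (σ X) ≠
            ({D.mach with out := D.outs u} : Machine Bool J P).result T
              (σ (plant (vi s κ) univ X))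
          then (1 : ℝ) else 0)
  rw [h2, Ex_const (vp_sum p)]
  have h3 := multi_prob (mm := mm) s (N := N) hp0 hp1
  have h4 : ∑ u : Fin U, Ex (vp p) (fun X =>
          ∑ κ : Fin mm × (Fin m → Fin N),
          if ({D.mach with out := D.outs u} : Machine Bool J P).result T (σ X) ≠
            ({D.mach with out := D.outs u} : Machine Bool J P).result T
              (σ (plant (vi s κ) univ X))
          then (1 : ℝ) else 0) ≤ U * B := by
    refine (Finset.sum_le_card_nsmul _ _ _ fun u _ => hB (D.outs u)).trans ?_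
    rw [Finset.card_univ, Fintype.card_fin, nsmul_eq_mul]
  have h5 : 1 / (mm * (N : ℝ) ^ m) * ∑ u : Fin U, Ex (vp p) (fun X =>
          ∑ κ : Fin mm × (Fin m → Fin N),
          if ({D.mach with out := D.outs u} : Machine Bool J P).result T (σ X) ≠
            ({D.mach with out := D.outs u} : Machine Bool J P).result T
              (σ (plant (vi s κ) univ X))
          then (1 : ℝ) else 0) ≤ U * B / (mm * (N : ℝ) ^ m) := by
    rw [one_div_mul_eq_div]
    exact div_le_div_of_nonneg_right h4 hNp.le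
  linarith

open Classical in
/-- Every randomized distiller fails on some sequence of formulas. -/
theorem distill_rand (ε : ℝ) (hε : 0 < ε) (K : ℕ) : ∃ C : ℝ, 0 < C ∧
    ∀ n T w M : ℕ, 2 ≤ n → 1 ≤ T → C * (T * Real.log n) ≤ w → w ≤ n → n * 2 ^ w ≤ M →
    ∀ mm : ℕ, 1 ≤ mm → mm ^ 8 ≤ 2 ^ n →
    ∀ (P U : ℕ) (R : RandDistiller (Fin mm × (Fin M × Fin n × Bool)) P U),
      (P : ℝ) ≤ 2 ^ ((1 - ε) * n) → R.Lists (2 ^ (K * n)) →
      ∃ x : Fin mm × (Fin M × Fin n × Bool) → Bool, (∀ i, WidthLe (fun j => x (i, j)) w) ∧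
        R.success T x (∃ i α, Models (fun j => x (i, j)) α) ≤
          1 / 2 + (1 + (U : ℝ) / mm) * (2 : ℝ) ^ (-((w : ℝ) / C)) := by
  obtain ⟨ε', hε'⟩ : ∃ ε' : ℝ, ε' = min ε (1 / 2) := ⟨_, rfl⟩
  have hε0 : 0 < ε' := by rw [hε']; exact lt_min hε (by norm_num)
  have hε1 : ε' ≤ 1 / 2 := by rw [hε']; exact min_le_right _ _
  have hε2 : ε' ≤ ε := by rw [hε']; exact min_le_left _ _
  obtain ⟨Q, hQ6, C', hC', hpar⟩ := multi_hard ε' hε0 hε1 (K + 1)
  obtain ⟨C, hC⟩ : ∃ C : ℝ, C = C' + 16 * (2 * Q ^ 2 + 14 + 1) := ⟨_, rfl⟩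
  have hQR : (6 : ℝ) ≤ Q := by exact_mod_cast hQ6
  have hC0 : 0 < C := by rw [hC]; positivity
  have hC8 : 8 ≤ C := by
    rw [hC]
    nlinarith
  refine ⟨C, hC0, ?_⟩
  intro n T w M hn hT hw hwn hM mm hmm hmm8 P U R hP hR
  have hnR : (2 : ℝ) ≤ n := by exact_mod_cast hn
  have hlogn : 0 ≤ Real.log n := Real.log_nonneg (by linarith)
  obtain ⟨b, m', hb, hm', hB2, hBw, hQn, hexp, hwb, s, hs, hMach⟩ := hpar n T w hn hT (by
    refine le_trans ?_ hw
    apply mul_le_mul_of_nonneg_right _ (by positivity)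
    rw [hC]
    have : (0 : ℝ) ≤ 16 * (2 * Q ^ 2 + 14 + 1) := by positivity
    linarith) hwn
  obtain ⟨σ, hσ, hσw, hσs⟩ := H592R3.MbU.enc Q (3 * T) b m' n w M hQ6 (by omega) hb hm' hn hBw
    hQn hM s
  obtain ⟨σ', hσ'⟩ : ∃ σ' : (Fin mm × Vr Q T b m' → Bool) →
      (Fin mm × (Fin M × Fin n × Bool) → Bool), σ' = fun X ij => σ (fun v => X (ij.1, v)) ij.2 :=
    ⟨_, rfl⟩
  have hσj : ∀ j, Junta 1 (fun x => σ' x j) := by
    intro j
    obtain ⟨A, hA, hdep⟩ := hσ j.2
    refine ⟨A.image (fun v => (j.1, v)), Finset.card_image_le.trans hA, ?_⟩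
    intro x y hxy
    rw [hσ']
    exact hdep _ _ fun v hv => hxy _ (Finset.mem_image_of_mem _ hv)
  obtain ⟨p, hp⟩ : ∃ p : ℝ, p = Pram.dens T b := ⟨_, rfl⟩
  have hp0 : 0 ≤ p := by rw [hp]; unfold Pram.dens; positivity
  have hp1 : p ≤ 1 := by
    have h1 : (1 : ℝ) ≤ ((2 : ℝ) ^ (3 * T * b)) ^ 3 := one_le_pow₀ (one_le_pow₀ (by norm_num))
    have h2 : 1 / ((2 : ℝ) ^ (3 * T * b)) ^ 3 ≤ 1 := by
      rw [div_le_one (by positivity)]; exact h1
    rw [hp]
    unfold Pram.dens
    linarith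
  have hmm2 : mm ≤ 2 ^ ((K + 1) * n) := by
    have h1 : mm ≤ mm ^ 8 := Nat.le_self_pow (by norm_num) mm
    have h2 : 2 ^ n ≤ 2 ^ ((K + 1) * n) := Nat.pow_le_pow_right (by norm_num) (by nlinarith)
    exact h1.trans (hmm8.trans h2)
  have hP' : (P : ℝ) ≤ 2 ^ ((1 - ε') * n) := by
    refine hP.trans ?_
    apply Real.rpow_le_rpow_of_exponent_le (by norm_num)
    nlinarith
  rw [← hp] at hMach
  have hNN : 1 ≤ dom T b := by unfold dom; exact Nat.one_le_two_pow
  obtain ⟨B, hB⟩ : ∃ B : ℝ, B = 3 * (((dom T b : ℕ) : ℝ) ^ (Q * m') / 2 ^ (3 * T * b)) :=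
    ⟨_, rfl⟩
  have hmm0 : (0 : ℝ) < mm := by exact_mod_cast hmm
  have hNp : (0 : ℝ) < (((dom T b : ℕ) : ℝ)) ^ (Q * m') := by unfold dom; positivity
  obtain ⟨yes, hyes⟩ : ∃ yes : (Fin mm × (Fin M × Fin n × Bool) → Bool) → Prop,
      yes = fun x => ∃ i α, Models (fun j => x (i, j)) α := ⟨_, rfl⟩
  -- the bound for one distiller
  have hcore : ∀ ω, ∑ y : ((Fin mm × Vr Q T b m' → Bool) ×
      (Fin mm × (Fin (Q * m') → Fin (dom T b)))) × Bool,
      ((∏ i, vp p (y.1.1 i)) * (1 / (mm * ((dom T b : ℕ) : ℝ) ^ (Q * m'))) * (1 / 2)) *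
      (if ((R.dist ω).Yes T (σ' (if y.2 = true then plant (vi s y.1.2) univ y.1.1 else y.1.1)) ↔
        yes (σ' (if y.2 = true then plant (vi s y.1.2) univ y.1.1 else y.1.1)))
        then (1 : ℝ) else 0) ≤
      1 / 2 + (mm * (((dom T b : ℕ) : ℝ) ^ (Q * m') * p ^ (Q * m')) +
        U * B / (mm * ((dom T b : ℕ) : ℝ) ^ (Q * m'))) / 2 := by
    intro ω
    refine dist_core hmm hNN s hp0 hp1 (R.dist ω) T σ' yes ?_ ?_
    · intro X
      rw [hyes, hσ']
      exact exists_congr fun i => hσs (fun v => X (i, v))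
    · intro c
      have h1 := hMach mm hmm hmm2 _ σ' hσj P {(R.dist ω).mach with out := c} hP' (by
        intro q
        refine (hR ω q).trans (Nat.pow_le_pow_right (by norm_num) ?_)
        nlinarith)
      rw [hB]
      exact h1
  let _ := R.fin
  obtain ⟨y, hy⟩ := avg_exists (fun y : ((Fin mm × Vr Q T b m' → Bool) ×
      (Fin mm × (Fin (Q * m') → Fin (dom T b)))) × Bool =>
      ((∏ i, vp p (y.1.1 i)) * (1 / (mm * ((dom T b : ℕ) : ℝ) ^ (Q * m'))) * (1 / 2)))
      (fun y => mul_nonneg (mul_nonneg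
    (Finset.prod_nonneg fun i _ => vp_nonneg hp0 hp1 _) (by positivity)) (by norm_num)) (by
      rw [Fintype.sum_prod_type, Fintype.sum_prod_type]
      dsimp only
      simp_rw [Fintype.sum_bool]
      have hcard : ∑ _κ : Fin mm × (Fin (Q * m') → Fin (dom T b)),
          (1 / (mm * ((dom T b : ℕ) : ℝ) ^ (Q * m'))) = 1 := by
        rw [Finset.sum_const, Finset.card_univ, Fintype.card_prod, Fintype.card_fun,
          Fintype.card_fin, Fintype.card_fin, Fintype.card_fin, nsmul_eq_mul]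
        push_cast
        field_simp
      have hμ1 : ∑ X : Fin mm × Vr Q T b m' → Bool, ∏ i, vp p (X i) = 1 := by
        have := Ex_const (I := Fin mm × Vr Q T b m') (vp_sum p) (1 : ℝ)
        unfold Ex at this
        simpa using this
      refine Eq.trans ?_ hμ1
      refine Finset.sum_congr rfl fun X _ => ?_
      rw [Finset.sum_congr rfl fun κ _ => (show (∏ i, vp p (X i)) *
        (1 / (mm * ((dom T b : ℕ) : ℝ) ^ (Q * m'))) * (1 / 2) + (∏ i, vp p (X i)) *
        (1 / (mm * ((dom T b : ℕ) : ℝ) ^ (Q * m'))) * (1 / 2) = (∏ i, vp p (X i)) *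
        (1 / (mm * ((dom T b : ℕ) : ℝ) ^ (Q * m'))) by ring), ← Finset.mul_sum, hcard, mul_one])
    R.prob R.nonneg R.total
    (fun ω y => (R.dist ω).Yes T (σ' (if y.2 = true then plant (vi s y.1.2) univ y.1.1
      else y.1.1)) ↔ yes (σ' (if y.2 = true then plant (vi s y.1.2) univ y.1.1 else y.1.1)))
    (1 / 2 + (mm * (((dom T b : ℕ) : ℝ) ^ (Q * m') * p ^ (Q * m')) +
        U * B / (mm * ((dom T b : ℕ) : ℝ) ^ (Q * m'))) / 2)
    (fun ω => le_trans (le_of_eq (Finset.sum_congr rfl fun y _ => by congr!)) (hcore ω))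
  rw [hyes] at hy
  refine ⟨σ' (if y.2 = true then plant (vi s y.1.2) univ y.1.1 else y.1.1), ?_, ?_⟩
  · intro i
    have h1 := hσw (fun v => (if y.2 = true then plant (vi s y.1.2) univ y.1.1 else y.1.1) (i, v))
    rw [hσ']
    exact h1
  · have h1 : R.success T (σ' (if y.2 = true then plant (vi s y.1.2) univ y.1.1 else y.1.1))
        (∃ i α, Models (fun j =>
          (σ' (if y.2 = true then plant (vi s y.1.2) univ y.1.1 else y.1.1)) (i, j)) α) ≤
        1 / 2 + (mm * (((dom T b : ℕ) : ℝ) ^ (Q * m') * p ^ (Q * m')) +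
        U * B / (mm * ((dom T b : ℕ) : ℝ) ^ (Q * m'))) / 2 := by
      refine le_trans (le_of_eq ?_) hy
      unfold RandDistiller.success
      exact Finset.sum_congr rfl fun ω _ => by congr!
    refine h1.trans ?_
    obtain ⟨E, hE⟩ : ∃ E : ℝ, E = (2 : ℝ) ^ (-((w : ℝ) / C)) := ⟨_, rfl⟩
    have hE0 : 0 < E := by rw [hE]; positivity
    rw [← hE]
    have hwR : (w : ℝ) ≤ n := by exact_mod_cast hwn
    have h2 : mm * (((dom T b : ℕ) : ℝ) ^ (Q * m') * p ^ (Q * m')) ≤ E := by
      have h3 := sat_arith Q (3 * T) b m' n ε' hexp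
      have h3' : (((dom T b : ℕ) : ℝ)) ^ (Q * m') * p ^ (Q * m') ≤
        2 ^ (-((1 - ε') * n / 2)) := by rw [hp]; exact h3
      have h4 : (mm : ℝ) ≤ 2 ^ ((n : ℝ) / 8) := by
        have h5 : ((mm : ℝ)) ^ 8 ≤ 2 ^ (n : ℝ) := by
          rw [Real.rpow_natCast]
          exact_mod_cast hmm8
        have h6 : (2 : ℝ) ^ (n : ℝ) = (2 ^ ((n : ℝ) / 8)) ^ 8 := by
          rw [← Real.rpow_natCast (2 ^ ((n : ℝ) / 8)) 8, ← Real.rpow_mul (by norm_num)]
          congr 1
          push_cast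
          ring
        rw [h6] at h5
        exact le_of_pow_le_pow_left₀ (by norm_num) (by positivity) h5
      calc mm * (((dom T b : ℕ) : ℝ) ^ (Q * m') * p ^ (Q * m')) ≤
          2 ^ ((n : ℝ) / 8) * 2 ^ (-((1 - ε') * n / 2)) :=
            mul_le_mul h4 h3' (by positivity) (by positivity)
        _ = 2 ^ ((n : ℝ) / 8 + -((1 - ε') * n / 2)) := by rw [← Real.rpow_add (by norm_num)]
        _ ≤ E := by
            rw [hE]
            apply Real.rpow_le_rpow_of_exponent_le (by norm_num)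
            have h5 : (w : ℝ) / C ≤ n / 8 :=
              (div_le_div_of_nonneg_right hwR hC0.le).trans
                (div_le_div_of_nonneg_left (by linarith) (by norm_num) hC8)
            nlinarith
    have hdt : 1 ≤ 3 * T * b := Nat.one_le_iff_ne_zero.2 (by positivity)
    have h4 : (4 : ℝ) ≤ 2 ^ ((3 * T * b : ℕ) / 2 : ℝ) := by
      have h5 : (2 : ℝ) ≤ (3 * T * b : ℕ) / 2 := by
        rw [le_div_iff₀ (by norm_num)]
        have : 4 ≤ 3 * T * b := by omega
        have h6 : ((4 : ℕ) : ℝ) ≤ ((3 * T * b : ℕ) : ℝ) := by exact_mod_cast this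
        push_cast at h6 ⊢
        linarith
      calc (4 : ℝ) = 2 ^ (2 : ℝ) := by norm_num
        _ ≤ 2 ^ ((3 * T * b : ℕ) / 2 : ℝ) := Real.rpow_le_rpow_of_exponent_le (by norm_num) h5
    have h5 : (2 : ℝ) ^ (3 * T * b) = 2 ^ ((3 * T * b : ℕ) / 2 : ℝ) * 2 ^ ((3 * T * b : ℕ) / 2 : ℝ) := by
      rw [← Real.rpow_add (by norm_num), add_halves, Real.rpow_natCast]
    have h6 : E = 1 / 2 ^ ((w : ℝ) / C) := by
      rw [hE, Real.rpow_neg (by norm_num), one_div]
    have h7 : (2 : ℝ) ^ ((w : ℝ) / C) ≤ 2 ^ ((3 * T * b : ℕ) / 2 : ℝ) := by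
      apply Real.rpow_le_rpow_of_exponent_le (by norm_num)
      rw [div_le_div_iff₀ hC0 (by norm_num)]
      have h8 : (w : ℝ) ≤ 8 * (2 * Q ^ 2 + 14 + 1) * (3 * T * b) := by
        have : ((w : ℕ) : ℝ) ≤ ((8 * ar Q * (3 * T * b) : ℕ) : ℝ) := by exact_mod_cast hwb
        unfold ar at this
        push_cast at this
        exact this
      have h9 : 16 * (2 * (Q : ℝ) ^ 2 + 14 + 1) * (3 * T * b) ≤ C * (3 * T * b) := by
        apply mul_le_mul_of_nonneg_right _ (by positivity)
        rw [hC]; linarith only [hC']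
      push_cast
      linarith only [h8, h9]
    have h8 : (3 : ℝ) / 2 ^ (3 * T * b) ≤ E := by
      rw [h6, h5, div_le_div_iff₀ (by positivity) (by positivity)]
      have h8 : (0 : ℝ) < 2 ^ ((3 * T * b : ℕ) / 2 : ℝ) := by positivity
      have h9 := mul_le_mul_of_nonneg_right h4 h8.le
      linarith only [h9, h7, h8]
    have h9 : U * B / (mm * ((dom T b : ℕ) : ℝ) ^ (Q * m')) = U / mm * (3 / 2 ^ (3 * T * b)) := by
      rw [hB]
      field_simp
    rw [h9]
    have h10 : (U : ℝ) / mm * (3 / 2 ^ (3 * T * b)) ≤ U / mm * E :=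
      mul_le_mul_of_nonneg_left h8 (by positivity)
    have h11 : 0 ≤ (U : ℝ) / mm * E := by positivity
    linarith only [h2, h10, h11, hE0]

end Pool.Agent.W964.Wd
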