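import Mathlib
import Pool.Agent.W964.Wd.Or.Main

/-!
Distillers: the asymptotic form.
-/

set_option linter.unusedSectionVars false

namespace Pool.Agent.W964.Wd

open Finset SmallDepth Filter Pool.Agent.W964.Pram

/-- The asymptotic form of the theorem about distillers. -/
theorem distill_q1 (δ : ℝ) (hδ : 0 < δ) (hδ2 : δ < 2) (Kc : ℕ) (T : ℕ → ℕ) (hT : ∀ n, 1 ≤ T n)
    (hTo : (fun n : ℕ => (T n : ℝ) * Real.log n) =o[atTop] (fun n : ℕ => (n : ℝ))) :
    ∃ w M : ℕ → ℕ, (∃ C : ℝ, ∀ n, 2 ≤ n → (w n : ℝ) ≤ C * (T n * Real.log n) ∧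
        (M n : ℝ) ≤ (n : ℝ) ^ (C * T n)) ∧
      ∀ c e : ℕ, ∀ᶠ n : ℕ in atTop, ∀ mm : ℕ, 1 ≤ mm → (mm : ℝ) ≤ c * (M n : ℝ) ^ e →
        ∀ (P U : ℕ) (R : RandDistiller (Fin mm × (Fin (M n) × Fin n × Bool)) P U), U ≤ mm →
        (P : ℝ) ≤ (2 - δ) ^ n * (c * (M n : ℝ) ^ e) → R.Lists (2 ^ (Kc * n)) →
        ∃ x : Fin mm × (Fin (M n) × Fin n × Bool) → Bool,
          (∀ i, WidthLe (fun j => x (i, j)) (w n)) ∧
          R.success (T n) x (∃ i α, Models (fun j => x (i, j)) α) < 2 / 3 := by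
  obtain ⟨β, hβ⟩ : ∃ β : ℝ, β = Real.logb 2 (2 - δ) := ⟨_, rfl⟩
  have hβ1 : β < 1 := by
    rw [hβ, Real.logb_lt_iff_lt_rpow (by norm_num) (by linarith), Real.rpow_one]
    linarith
  have hβ2 : (2 - δ) = 2 ^ β := by
    rw [hβ, Real.rpow_logb (by norm_num) (by norm_num) (by linarith)]
  obtain ⟨ε, hε⟩ : ∃ ε : ℝ, ε = (1 - β) / 2 := ⟨_, rfl⟩
  have hε0 : 0 < ε := by rw [hε]; linarith
  obtain ⟨C, hC, H⟩ := distill_rand ε hε0 Kc
  obtain ⟨w, hw⟩ : ∃ w : ℕ → ℕ, w = fun n => ⌈C * (T n * Real.log n)⌉₊ := ⟨_, rfl⟩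
  have hwge : ∀ n, C * (T n * Real.log n) ≤ w n := by
    intro n; rw [hw]; exact Nat.le_ceil _
  have hlogn : Tendsto (fun n : ℕ => Real.log (n : ℝ)) atTop atTop :=
    Real.tendsto_log_atTop.comp tendsto_natCast_atTop_atTop
  have hnt : Tendsto (fun n : ℕ => (n : ℝ)) atTop atTop := tendsto_natCast_atTop_atTop
  -- bounds for `w n` and for the number of clauses
  have hl2 : (1 : ℝ) / 2 ≤ Real.log 2 := by
    have := Real.log_two_gt_d9
    linarith
  have hl2' : Real.log 2 ≤ 1 := by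
    have := Real.log_two_lt_d9
    linarith
  have hwle : ∀ n : ℕ, 2 ≤ n → (w n : ℝ) ≤ (C + 2) * (T n * Real.log n) := by
    intro n hn
    have hnR : (2 : ℝ) ≤ n := by exact_mod_cast hn
    have hTR : (1 : ℝ) ≤ T n := by exact_mod_cast hT n
    have hlog : 1 / 2 ≤ Real.log n := hl2.trans (Real.log_le_log (by norm_num) hnR)
    have h1 : (w n : ℝ) ≤ C * (T n * Real.log n) + 1 := by
      rw [congrFun hw n]
      exact (Nat.ceil_lt_add_one (by positivity)).le
    have h2 : 1 * (1 / 2) ≤ (T n : ℝ) * Real.log n :=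
      mul_le_mul hTR hlog (by norm_num) (by linarith)
    linarith
  have hMle : ∀ n : ℕ, 2 ≤ n → ((n * 2 ^ w n : ℕ) : ℝ) ≤ (n : ℝ) ^ ((C + 3) * T n) := by
    intro n hn
    have hnR : (2 : ℝ) ≤ n := by exact_mod_cast hn
    have hn0 : (0 : ℝ) < n := by linarith
    have hTR : (1 : ℝ) ≤ T n := by exact_mod_cast hT n
    have hlog : 0 ≤ Real.log n := Real.log_nonneg (by linarith)
    have h1 := hwle n hn
    push_cast
    rw [← Real.rpow_natCast, Real.rpow_def_of_pos (by norm_num : (0 : ℝ) < 2),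
      Real.rpow_def_of_pos hn0]
    nth_rewrite 1 [← Real.exp_log hn0]
    rw [← Real.exp_add]
    apply Real.exp_le_exp.2
    calc Real.log n + Real.log 2 * (w n : ℝ) ≤ Real.log n + 1 * (w n : ℝ) := by gcongr
      _ ≤ Real.log n + 1 * ((C + 2) * (T n * Real.log n)) := by gcongr
      _ ≤ T n * Real.log n + 1 * ((C + 2) * (T n * Real.log n)) := by
          have : 1 * Real.log n ≤ T n * Real.log n := mul_le_mul_of_nonneg_right hTR hlog
          linarith
      _ = Real.log n * ((C + 3) * T n) := by ring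
  refine ⟨w, fun n => n * 2 ^ w n, ⟨C + 3, fun n hn => ⟨?_, hMle n hn⟩⟩, ?_⟩
  · refine (hwle n hn).trans ?_
    have hnR : (2 : ℝ) ≤ n := by exact_mod_cast hn
    have hlog : 0 ≤ (T n : ℝ) * Real.log n := by
      have := Real.log_nonneg (by linarith : (1 : ℝ) ≤ n)
      positivity
    linarith
  · intro c e
    have hE : (fun n : ℕ => (c : ℝ) + 2 * e * ((C + 3) * (T n * Real.log n)))
        =o[atTop] (fun n : ℕ => (n : ℝ)) := by
      have hconst : (fun _ : ℕ => (c : ℝ)) =o[atTop] (fun n : ℕ => (n : ℝ)) :=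
        Asymptotics.isLittleO_const_left.2 (Or.inr (tendsto_norm_atTop_atTop.comp hnt))
      have h1 : (fun n : ℕ => (c : ℝ) + 2 * e * ((C + 3) * (T n * Real.log n))) =
          fun n : ℕ => (c : ℝ) + (2 * e * (C + 3)) * (T n * Real.log n) := by
        funext n; ring
      rw [h1]
      exact hconst.add (hTo.const_mul_left _)
    have hW : (fun n : ℕ => (C + 2) * (T n * Real.log n)) =o[atTop] (fun n : ℕ => (n : ℝ)) :=
      hTo.const_mul_left _
    filter_upwards [hE.bound hε0, hW.bound (zero_lt_one), hlogn.eventually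
      (eventually_ge_atTop 4), eventually_ge_atTop 2,
      hE.bound (by norm_num : (0 : ℝ) < 1 / 8)] with n h1 h2 h4 h5 h18
    have hnR : (2 : ℝ) ≤ n := by exact_mod_cast h5
    have hn0 : (0 : ℝ) < n := by linarith
    have hTR : (1 : ℝ) ≤ T n := by exact_mod_cast hT n
    have hTL : 0 ≤ (T n : ℝ) * Real.log n := by positivity
    rw [Real.norm_of_nonneg (by positivity), Real.norm_of_nonneg (by linarith)] at h1 h2 h18
    have hwn : w n ≤ n := by
      have : (w n : ℝ) ≤ n := (hwle n h5).trans (by linarith)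
      exact_mod_cast this
    intro mm hmm hmmM P U R hU hP hR
    have hMle' : ((n * 2 ^ w n : ℕ) : ℝ) ≤ 2 ^ (2 * ((C + 3) * (T n * Real.log n))) := by
      refine (hMle n h5).trans ?_
      rw [Real.rpow_def_of_pos (by norm_num : (0 : ℝ) < 2), Real.rpow_def_of_pos hn0]
      apply Real.exp_le_exp.2
      have h6 : 0 ≤ (C + 3) * ((T n : ℝ) * Real.log n) := by positivity
      have h7 : (1 / 2) * (2 * ((C + 3) * ((T n : ℝ) * Real.log n))) ≤
          Real.log 2 * (2 * ((C + 3) * (T n * Real.log n))) :=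
        mul_le_mul_of_nonneg_right hl2 (by positivity)
      calc Real.log n * ((C + 3) * T n) = (1 / 2) * (2 * ((C + 3) * (T n * Real.log n))) := by
            ring
        _ ≤ _ := h7
    have hc : (c : ℝ) ≤ 2 ^ (c : ℝ) := by
      rw [Real.rpow_natCast]
      exact_mod_cast Nat.lt_two_pow_self.le
    have hpoly : (c * ((n * 2 ^ w n : ℕ) : ℝ) ^ e) ≤
        2 ^ ((c : ℝ) + 2 * e * ((C + 3) * (T n * Real.log n))) := by
      calc (c * ((n * 2 ^ w n : ℕ) : ℝ) ^ e) ≤ (2 ^ (c : ℝ) *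
            (2 ^ (2 * ((C + 3) * (T n * Real.log n)))) ^ e) := by gcongr
        _ = _ := by
            rw [← Real.rpow_natCast (2 ^ _ : ℝ) e,
              ← Real.rpow_mul (by norm_num), ← Real.rpow_add (by norm_num)]
            congr 1
            ring
    have hmm8 : mm ^ 8 ≤ 2 ^ n := by
      have h6 : (mm : ℝ) ≤ 2 ^ ((1 / 8 : ℝ) * n) := by
        refine hmmM.trans (hpoly.trans ?_)
        exact Real.rpow_le_rpow_of_exponent_le (by norm_num) h18
      have h7 : (mm : ℝ) ^ 8 ≤ (2 ^ ((1 / 8 : ℝ) * n)) ^ 8 :=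
        pow_le_pow_left₀ (Nat.cast_nonneg _) h6 8
      have h8 : ((2 : ℝ) ^ ((1 / 8 : ℝ) * n)) ^ 8 = 2 ^ n := by
        rw [← Real.rpow_natCast (2 ^ ((1 / 8 : ℝ) * n)) 8, ← Real.rpow_mul (by norm_num),
          ← Real.rpow_natCast 2 n]
        congr 1
        push_cast
        ring
      rw [h8] at h7
      exact_mod_cast h7
    have hPle : (P : ℝ) ≤ 2 ^ ((1 - ε) * n) := by
      refine hP.trans ?_
      have hpow : (0 : ℝ) ≤ (2 - δ) ^ n := pow_nonneg (by linarith) n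
      calc (2 - δ) ^ n * (c * ((n * 2 ^ w n : ℕ) : ℝ) ^ e)
          ≤ (2 - δ) ^ n * (2 ^ (c : ℝ) *
            (2 ^ (2 * ((C + 3) * (T n * Real.log n)))) ^ e) := by gcongr
        _ = 2 ^ (β * n + ((c : ℝ) + 2 * e * ((C + 3) * (T n * Real.log n)))) := by
            rw [hβ2, ← Real.rpow_natCast (2 ^ β) n, ← Real.rpow_natCast (2 ^ _ : ℝ) e,
              ← Real.rpow_mul (by norm_num), ← Real.rpow_mul (by norm_num),
              ← Real.rpow_add (by norm_num), ← Real.rpow_add (by norm_num)]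
            congr 1
            ring
        _ ≤ 2 ^ (β * n + ε * n) := by
            apply Real.rpow_le_rpow_of_exponent_le (by norm_num)
            linarith
        _ = 2 ^ ((1 - ε) * n) := by
            congr 1
            have h9 : β = 1 - 2 * ε := by rw [hε]; ring
            rw [h9]; ring
    obtain ⟨x, hx1, hx2⟩ := H n (T n) (w n) (n * 2 ^ w n) h5 (hT n) (hwge n) hwn le_rfl mm hmm
      hmm8 P U R hPle hR
    refine ⟨x, hx1, lt_of_le_of_lt hx2 ?_⟩
    have h6 : (2 : ℝ) ^ (-((w n : ℝ) / C)) ≤ 2 ^ (-(4 : ℝ)) := by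
      apply Real.rpow_le_rpow_of_exponent_le (by norm_num)
      rw [neg_le_neg_iff, le_div_iff₀ hC]
      have h7 : 1 * 4 ≤ (T n : ℝ) * Real.log n := mul_le_mul hTR h4 (by norm_num) (by linarith)
      have h8 : C * 4 ≤ C * (T n * Real.log n) := mul_le_mul_of_nonneg_left (by linarith) hC.le
      linarith [hwge n]
    have h7 : (2 : ℝ) ^ (-(4 : ℝ)) = 1 / 16 := by
      rw [Real.rpow_neg (by norm_num)]
      norm_num
    rw [h7] at h6
    have hmm0 : (0 : ℝ) < mm := by exact_mod_cast hmm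
    have hUm : (U : ℝ) / mm ≤ 1 := by
      rw [div_le_one hmm0]
      exact_mod_cast hU
    have h8 : (1 + (U : ℝ) / mm) * (2 : ℝ) ^ (-((w n : ℝ) / C)) ≤ (1 + 1) * (1 / 16) :=
      mul_le_mul (by linarith) h6 (by positivity) (by norm_num)
    linarith

end Pool.Agent.W964.Wd
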